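import Pool.Agent.Q154.WeakMenger

set_option autoImplicit false

/-!
# Weakly Lindelöf spaces of cardinality less than `𝔡` (MP_ed8104_gt)
-/

open Set Topology Cardinal

namespace Pool.Agent.Results.MP_ed8104_gt.DominatingNumber

/-- The dominating number `𝔡`. -/
noncomputable def domNum : Cardinal.{0} :=
  sInf {κ | ∃ D : Set (ℕ → ℕ), #D = κ ∧ ∀ g : ℕ → ℕ, ∃ f ∈ D, ∀ᶠ n in Filter.atTop, g n ≤ f n}

section
variable (X : Type) [TopologicalSpace X]

/-- `𝒰` is an open cover of `X`. -/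
def IsOpenCover {X : Type} [TopologicalSpace X] (𝒰 : Set (Set X)) : Prop :=
  (∀ U ∈ 𝒰, IsOpen U) ∧ ⋃₀ 𝒰 = Set.univ

/-- Every open cover has a countable subfamily with dense union. -/
def WeaklyLindelof : Prop :=
  ∀ 𝒰 : Set (Set X), IsOpenCover 𝒰 → ∃ 𝒱 ⊆ 𝒰, 𝒱.Countable ∧ Dense (⋃₀ 𝒱)

/-- For each sequence of open covers there are finite subfamilies whose union is dense. -/
def WeaklyMenger : Prop :=
  ∀ 𝒰 : ℕ → Set (Set X), (∀ n, IsOpenCover (𝒰 n)) →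
    ∃ 𝒱 : ℕ → Set (Set X), (∀ n, 𝒱 n ⊆ 𝒰 n ∧ (𝒱 n).Finite) ∧ Dense (⋃ n, ⋃₀ (𝒱 n))

/-- Weakly Scheepers in the sense of Sakai. -/
def WeaklyScheepersSakai : Prop :=
  ∀ 𝒰 : ℕ → Set (Set X), (∀ n, IsOpenCover (𝒰 n)) →
    ∃ 𝒱 : ℕ → Set (Set X), (∀ n, 𝒱 n ⊆ 𝒰 n ∧ (𝒱 n).Finite) ∧
      ∀ ℱ : Set (Set X), ℱ.Finite → (∀ U ∈ ℱ, IsOpen U ∧ U.Nonempty) →
        {n | ∀ U ∈ ℱ, (U ∩ ⋃₀ (𝒱 n)).Nonempty}.Infinite

/-- Weakly Scheepers in the sense of Kočinac. -/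
def WeaklyScheepersKocinac : Prop :=
  ∀ 𝒰 : ℕ → Set (Set X), (∀ n, IsOpenCover (𝒰 n)) →
    ∃ (Y : Set X) (𝒱 : ℕ → Set (Set X)), Dense Y ∧ (∀ n, 𝒱 n ⊆ 𝒰 n ∧ (𝒱 n).Finite) ∧
      ∀ F : Set X, F.Finite → F ⊆ Y → {n | F ⊆ ⋃₀ (𝒱 n)}.Infinite

end

theorem sakai_of_kocinac {X : Type} [TopologicalSpace X] (h : WeaklyScheepersKocinac X) :
    WeaklyScheepersSakai X := by
  intro 𝒰 h𝒰
  obtain ⟨Y, 𝒱, hY, h𝒱, hF⟩ := h 𝒰 h𝒰
  refine ⟨𝒱, h𝒱, fun ℱ hfin hℱ => ?_⟩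
  have hex : ∀ U ∈ ℱ, ∃ x, x ∈ U ∩ Y := fun U hU =>
    hY.inter_open_nonempty U (hℱ U hU).1 (hℱ U hU).2
  by_cases hne : Nonempty X
  · choose! x hx using hex
    refine (hF (x '' ℱ) (hfin.image x) ?_).mono ?_
    · rintro _ ⟨U, hU, rfl⟩
      exact (hx U hU).2
    · intro n hn U hU
      exact ⟨x U, (hx U hU).1, hn ⟨U, hU, rfl⟩⟩
  · rw [not_nonempty_iff] at hne
    refine (hF ∅ Set.finite_empty (empty_subset _)).mono ?_
    intro n _ U hU
    obtain ⟨x, _⟩ := hex U hU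
    exact (hne.false x).elim

theorem menger_of_sakai {X : Type} [TopologicalSpace X] (h : WeaklyScheepersSakai X) :
    WeaklyMenger X := by
  intro 𝒰 h𝒰
  obtain ⟨𝒱, h𝒱, hF⟩ := h 𝒰 h𝒰
  refine ⟨𝒱, h𝒱, ?_⟩
  rw [dense_iff_inter_open]
  intro O hO hne
  obtain ⟨n, hn⟩ := (hF {O} (Set.finite_singleton O) (by
    rintro U rfl
    exact ⟨hO, hne⟩)).nonempty
  obtain ⟨x, hx, hx'⟩ := hn O rfl
  exact ⟨x, hx, mem_iUnion.2 ⟨n, hx'⟩⟩

theorem kocinac_of_countable {X : Type} [TopologicalSpace X] [Countable X] :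
    WeaklyScheepersKocinac X := by
  classical
  intro 𝒰 h𝒰
  have hmem : ∀ n (x : X), ∃ U ∈ 𝒰 n, x ∈ U := by
    intro n x
    have : x ∈ ⋃₀ (𝒰 n) := by rw [(h𝒰 n).2]; trivial
    exact this
  by_cases hne : Nonempty X
  · obtain ⟨e, he⟩ := exists_surjective_nat X
    choose U hU hxU using hmem
    refine ⟨Set.univ, fun n => (fun i => U n (e i)) '' (Set.Iic n), dense_univ, ?_, ?_⟩
    · intro n
      refine ⟨?_, (Set.finite_Iic n).image _⟩
      rintro _ ⟨i, _, rfl⟩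
      exact hU n (e i)
    · intro F hF _
      choose j hj using he
      obtain ⟨N, hN⟩ := (hF.image j).bddAbove
      refine (Set.Ici_infinite N).mono ?_
      intro n hn x hx
      refine ⟨U n (e (j x)), ⟨j x, ?_, rfl⟩, ?_⟩
      · exact (hN ⟨x, hx, rfl⟩).trans hn
      · have := hxU n (e (j x))
        rwa [hj x] at this ⊢
  · rw [not_nonempty_iff] at hne
    refine ⟨Set.univ, fun n => ∅, dense_univ, fun n => ⟨empty_subset _, Set.finite_empty⟩, ?_⟩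
    intro F _ _
    refine Set.infinite_univ.mono ?_
    intro n _ x
    exact (hne.false x).elim

theorem aleph_one_le_domNum : ℵ_ 1 ≤ domNum := by
  refine le_csInf ⟨_, Set.univ, rfl, fun g => ⟨g, trivial, by simp⟩⟩ ?_
  rintro κ ⟨D, rfl, hD⟩
  by_contra hcon
  rw [not_le] at hcon
  have hc : D.Countable := by
    rw [← Cardinal.le_aleph0_iff_set_countable, ← Order.lt_succ_iff, Cardinal.succ_aleph0]
    exact hcon
  obtain ⟨f₀, hf₀, _⟩ := hD 0
  have hne : D.Nonempty := ⟨f₀, hf₀⟩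
  obtain ⟨e, he⟩ := hc.exists_eq_range hne
  obtain ⟨f, hf, hlt⟩ := hD fun n => ∑ k ∈ Finset.range (n + 1), e k n + 1
  rw [he] at hf
  obtain ⟨k, rfl⟩ := hf
  obtain ⟨N, hN⟩ := Filter.eventually_atTop.1 hlt
  have h1 := hN (max N k) (le_max_left _ _)
  have h2 : e k (max N k) ≤ ∑ j ∈ Finset.range (max N k + 1), e j (max N k) :=
    Finset.single_le_sum (f := fun j => e j (max N k)) (fun _ _ => Nat.zero_le _)
      (Finset.mem_range.2 (Nat.lt_succ_of_le (le_max_right _ _)))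
  replace h1 : ∑ j ∈ Finset.range (max N k + 1), e j (max N k) + 1 ≤ e k (max N k) := h1
  omega

/-- The space. -/
theorem example_space : ∃ (X : Type) (_ : TopologicalSpace X),
    #X = ℵ_ 1 ∧ T2Space X ∧ TopologicalSpace.IsTopologicalBasis {U : Set X | IsClopen U} ∧
      WeaklyLindelof X ∧ ¬ WeaklyMenger X := by
  let T : Type := (ℵ_ 1 : Cardinal.{0}).out
  have hT : #T = ℵ_ 1 := Cardinal.mk_out _
  have hunc : Uncountable T := by
    rw [← Cardinal.aleph0_lt_mk_iff, hT]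
    exact Cardinal.aleph0_lt_aleph_one
  refine ⟨Q154.WeakMenger.P T, Q154.WeakMenger.instTop T, Q154.WeakMenger.mk_P_eq hT,
    Q154.WeakMenger.instT2, Q154.WeakMenger.basis, ?_, ?_⟩
  · intro 𝒰 h𝒰
    exact Q154.WeakMenger.weaklyLindelof 𝒰 h𝒰.1 h𝒰.2
  · intro h
    obtain ⟨𝒰, h𝒰, hno⟩ := Q154.WeakMenger.not_weaklyMenger (T := T)
    obtain ⟨𝒱, h𝒱, hd⟩ := h 𝒰 h𝒰
    exact hno 𝒱 h𝒱 hd

theorem iff_aux (Q : ∀ (X : Type) [TopologicalSpace X], Prop)
    (h1 : ∀ (X : Type) [TopologicalSpace X], WeaklyScheepersKocinac X → Q X)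
    (h2 : ∀ (X : Type) [TopologicalSpace X], Q X → WeaklyMenger X) :
    (∀ (X : Type) [TopologicalSpace X], WeaklyLindelof X → #X < domNum → Q X) ↔
      domNum = ℵ_ 1 := by
  constructor
  · intro h
    by_contra hne
    have hlt : ℵ_ 1 < domNum := lt_of_le_of_ne aleph_one_le_domNum (Ne.symm hne)
    obtain ⟨X, _, hX, _, _, hL, hM⟩ := example_space
    exact hM (h2 X (h X hL (by rw [hX]; exact hlt)))
  · intro h X _ _ hX
    rw [h] at hX
    have : Countable X := by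
      rw [← Cardinal.mk_le_aleph0_iff]
      rwa [← Order.lt_succ_iff, Cardinal.succ_aleph0]
    exact h1 X kocinac_of_countable

/-- There is, in ZFC, a weakly Lindelöf space (Hausdorff, with a base of clopen sets) of
cardinality `ℵ₁` which is not weakly Menger. Consequently each of the three statements (a), (b),
(c) holds if and only if `𝔡 = ℵ₁`. -/
theorem result :
    (∃ (X : Type) (_ : TopologicalSpace X),
      #X = ℵ_ 1 ∧ T2Space X ∧ TopologicalSpace.IsTopologicalBasis {U : Set X | IsClopen U} ∧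
        WeaklyLindelof X ∧ ¬ WeaklyMenger X) ∧
    ((∀ (X : Type) [TopologicalSpace X], WeaklyLindelof X → #X < domNum →
      WeaklyScheepersKocinac X) ↔ domNum = ℵ_ 1) ∧
    ((∀ (X : Type) [TopologicalSpace X], WeaklyLindelof X → #X < domNum →
      WeaklyScheepersSakai X) ↔ domNum = ℵ_ 1) ∧
    ((∀ (X : Type) [TopologicalSpace X], WeaklyLindelof X → #X < domNum →
      WeaklyMenger X) ↔ domNum = ℵ_ 1) := by
  refine ⟨example_space, ?_, ?_, ?_⟩
  · exact iff_aux (fun X _ => WeaklyScheepersKocinac X) (fun X _ h => h)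
      (fun X _ h => menger_of_sakai (sakai_of_kocinac h))
  · exact iff_aux (fun X _ => WeaklyScheepersSakai X) (fun X _ h => sakai_of_kocinac h)
      (fun X _ h => menger_of_sakai h)
  · exact iff_aux (fun X _ => WeaklyMenger X) (fun X _ h => menger_of_sakai (sakai_of_kocinac h))
      (fun X _ h => h)

end Pool.Agent.Results.MP_ed8104_gt.DominatingNumber
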